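import Pool.Agent.H815.QC.Stm

/-!
# Project QC (MP_c91b70_al), statement P3: centralizers on the first side
-/

set_option autoImplicit false

namespace Pool.Agent.H727.QC

open Pool.Agent.Y110.FJ Pool.Agent.T2H65.GP Pool.Agent.H815.QC

/-! ### general lemmas -/

section gen

variable {V : Type} [Finite V] (Λ : SimpleGraph V) (B : V → Type) [∀ v, Group (B v)]

theorem exists_Mn_in {S : V → Prop} {x : GrP Λ B} (hx : x ∈ std Λ B S) :
    ∃ (T : V → Prop) (c : GrP Λ B), c ∈ std Λ B S ∧ (∀ v, T v → S v) ∧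
      Mn Λ B T (c⁻¹ * x * c) := by
  obtain ⟨T, c, hT⟩ := exists_Mn Λ B x
  have h1 := conj_std Λ B hx hT.1
  have h2 : (c⁻¹ * er Λ B S c)⁻¹ * (c⁻¹ * x * c) * (c⁻¹ * er Λ B S c) =
      (er Λ B S c)⁻¹ * x * er Λ B S c := by group
  have h3 : ∀ v, T v → S v ∧ T v := by
    intro v hv
    refine Mn_sub Λ B (T' := fun v => S v ∧ T v) hT (c := c⁻¹ * er Λ B S c) ?_ v hv
    rw [h2]
    exact h1
  refine ⟨T, er Λ B S c, er_mem Λ B S c, fun v hv => (h3 v hv).1, ?_, ?_⟩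
  · exact std_mono Λ B (fun v hv => hv.2) h1
  · intro T' h4 h5 d hd
    refine hT.2 T' h4 h5 (c⁻¹ * er Λ B S c * d) ?_
    have h6 : (c⁻¹ * er Λ B S c * d)⁻¹ * (c⁻¹ * x * c) * (c⁻¹ * er Λ B S c * d) =
      d⁻¹ * ((er Λ B S c)⁻¹ * x * er Λ B S c) * d := by group
    rw [h6]
    exact hd

theorem zp_comm {G : Type} [Group G] {z a b : G} (ha : a ∈ Subgroup.zpowers z)
    (hb : b ∈ Subgroup.zpowers z) : a * b = b * a := by
  obtain ⟨i, rfl⟩ := ha
  obtain ⟨j, rfl⟩ := hb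
  exact (Commute.zpow_zpow (Commute.refl z) i j).eq

end gen

/-! ### the pentagon -/

theorem ind_cl (v : Fin 5) : Ind Γ1 (cl v) := by
  intro s t hs ht h
  have h1 : s.1 = v := hs
  have h2 : t.1 = v := ht
  have h3 : t.1 = s.1 + 1 ∨ s.1 = t.1 + 1 := h
  rw [h1, h2] at h3
  revert h3
  clear h h1 h2 hs ht s t
  revert v
  decide

theorem ind_nb (v : Fin 5) : Ind Γ1 (nb v) := by
  rintro ⟨s, s'⟩ ⟨t, t'⟩ hs ht h
  have h1 : s = v + 1 ∨ v = s + 1 := hs
  have h2 : t = v + 1 ∨ v = t + 1 := ht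
  have h3 : t = s + 1 ∨ s = t + 1 := h
  revert h1 h2 h3
  clear h hs ht s' t'
  revert v s t
  decide

theorem adj_cn (v : Fin 5) (t s : V1) (ht : cl v t) (hs : nb v s) : Γ1.Adj t s := by
  have h1 : t.1 = v := ht
  have h2 : s.1 = v + 1 ∨ v = s.1 + 1 := hs
  show s.1 = t.1 + 1 ∨ t.1 = s.1 + 1
  rw [h1]
  exact h2

theorem adj_nc (v : Fin 5) (t s : V1) (ht : nb v t) (hs : cl v s) : Γ1.Adj t s :=
  (adj_cn v s t hs ht).symm

/-- the two vertices of the large factor -/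
def v₁ (v : Fin 5) : V1 := (v + 1, 0)

/-- the second vertex -/
def v₂ (v : Fin 5) : V1 := (v + 4, 0)

theorem v12 (v : Fin 5) : v₁ v ≠ v₂ v := by
  intro h
  have h1 : v + 1 = v + 4 := congrArg Prod.fst h
  revert h1
  clear h
  revert v
  decide

theorem v12_adj (v : Fin 5) : ¬ Γ1.Adj (v₁ v) (v₂ v) := by
  intro h
  have h1 : v + 4 = v + 1 + 1 ∨ v + 1 = v + 4 + 1 := h
  revert h1
  clear h
  revert v
  decide

theorem nb1 (v : Fin 5) : nb v (v₁ v) := Or.inl rfl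

theorem nb2 (v : Fin 5) : nb v (v₂ v) := by
  right
  show v = v + 4 + 1
  revert v
  decide

theorem pp12 (v : Fin 5) (a : V1) (h : pp Γ1 (fun s => s = v₁ v ∨ s = v₂ v) a) : cl v a := by
  obtain ⟨a, a'⟩ := a
  have h1 : v + 1 = a + 1 ∨ a = v + 1 + 1 := h (v₁ v) (Or.inl rfl)
  have h2 : v + 4 = a + 1 ∨ a = v + 4 + 1 := h (v₂ v) (Or.inr rfl)
  show a = v
  revert h1 h2
  clear h
  revert v a
  decide

/-! ### an element of infinite order -/

/-- homomorphisms of the group of order two -/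
noncomputable def hom2 {H : Type} [Group H] (σ : H) (hσ : σ * σ = 1) :
    Multiplicative (ZMod 2) →* H where
  toFun x := if x = 1 then 1 else σ
  map_one' := if_pos rfl
  map_mul' x y := by
    have h1 : ∀ x y : Multiplicative (ZMod 2), x ≠ 1 → y ≠ 1 → x * y = 1 := by decide
    by_cases hx : x = 1
    · rw [if_pos hx, one_mul, hx, one_mul]
    · by_cases hy : y = 1
      · rw [if_pos hy, mul_one, hy, mul_one]
      · rw [if_neg hx, if_neg hy, if_pos (h1 x y hx hy), hσ]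

theorem hom2_gen {H : Type} [Group H] (σ : H) (hσ : σ * σ = 1) :
    hom2 σ hσ (Multiplicative.ofAdd 1) = σ := by
  have h1 : (Multiplicative.ofAdd 1 : Multiplicative (ZMod 2)) ≠ 1 := by decide
  show (if (Multiplicative.ofAdd 1 : Multiplicative (ZMod 2)) = 1 then (1 : H) else σ) = σ
  rw [if_neg h1]

/-- the generator of a vertex group -/
noncomputable def gn (a : V1) : P1 := GrP.of Γ1 B1 a (Multiplicative.ofAdd 1)

theorem st_pow (v : Fin 5) (m : ℕ) (hm : 0 < m) : (gn (v₁ v) * gn (v₂ v)) ^ m ≠ 1 := by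
  classical
  obtain ⟨f, hf⟩ : ∃ f : P1 →* DihedralGroup 0, f (gn (v₁ v)) = DihedralGroup.sr 0 ∧
      f (gn (v₂ v)) = DihedralGroup.sr 1 := by
    have e1 : (DihedralGroup.sr 0 : DihedralGroup 0) * DihedralGroup.sr 0 = 1 :=
      DihedralGroup.sr_mul_self 0
    have e2 : (DihedralGroup.sr 1 : DihedralGroup 0) * DihedralGroup.sr 1 = 1 :=
      DihedralGroup.sr_mul_self 1
    refine ⟨glift (fun a => if a = v₁ v then hom2 _ e1 else if a = v₂ v then hom2 _ e2 else 1)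
      ?_, ?_, ?_⟩
    · intro s t hst a b
      by_cases hs1 : s = v₁ v
      · by_cases ht2 : t = v₂ v
        · exfalso
          rw [hs1, ht2] at hst
          exact v12_adj v hst
        · by_cases ht1 : t = v₁ v
          · exfalso
            rw [hs1, ht1] at hst
            exact Γ1.loopless.irrefl _ hst
          · simp [ht1, ht2]
      · by_cases hs2 : s = v₂ v
        · by_cases ht1 : t = v₁ v
          · exfalso
            rw [hs2, ht1] at hst
            exact v12_adj v hst.symm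
          · by_cases ht2 : t = v₂ v
            · exfalso
              rw [hs2, ht2] at hst
              exact Γ1.loopless.irrefl _ hst
            · simp [ht1, ht2]
        · simp [hs1, hs2]
    · rw [gn, glift_of, if_pos rfl, hom2_gen]
    · rw [gn, glift_of, if_neg (v12 v).symm, if_pos rfl, hom2_gen]
  intro h
  have h1 := congrArg f h
  rw [map_pow, map_mul, hf.1, hf.2, map_one, DihedralGroup.sr_mul_sr, sub_zero,
    DihedralGroup.r_one_pow, DihedralGroup.one_def] at h1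
  have h2 : ((m : ℕ) : ZMod 0) = 0 := DihedralGroup.r.inj h1
  have h3 : (m : ℤ) = 0 := h2
  omega

theorem sq_one (a : V1) {x : P1} (hx : x ∈ std Γ1 B1 (fun b => b = a)) : x * x = 1 := by
  have h1 : x ∈ vg Γ1 B1 a := by
    refine std_le Γ1 B1 (T := fun b => b = a) (H := vg Γ1 B1 a) ?_ hx
    rintro b rfl
    exact le_refl _
  obtain ⟨b, rfl⟩ := h1
  rw [← map_mul]
  have h2 : ∀ b : Multiplicative (ZMod 2), b * b = 1 := by decide
  have h3 : b * b = 1 := h2 b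
  rw [h3, map_one]

theorem Mn_st (v : Fin 5) (m : ℕ) (hm : 0 < m) :
    Mn Γ1 B1 (fun s => s = v₁ v ∨ s = v₂ v) ((gn (v₁ v) * gn (v₂ v)) ^ m) := by
  refine ⟨?_, ?_⟩
  · refine pow_mem (mul_mem ?_ ?_) m
    · exact vg_le_std Γ1 B1 (T := fun s => s = v₁ v ∨ s = v₂ v) (Or.inl rfl) ⟨_, rfl⟩
    · exact vg_le_std Γ1 B1 (T := fun s => s = v₁ v ∨ s = v₂ v) (Or.inr rfl) ⟨_, rfl⟩
  · rintro T' h1 ⟨a, h2, h3⟩ c hc
    have h4 : (c⁻¹ * (gn (v₁ v) * gn (v₂ v)) ^ m * c) *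
        (c⁻¹ * (gn (v₁ v) * gn (v₂ v)) ^ m * c) = 1 := by
      rcases h2 with rfl | rfl
      · refine sq_one (v₂ v) (std_mono Γ1 B1 (fun b hb => ?_) hc)
        rcases h1 b hb with h5 | h5
        · rw [h5] at hb
          exact absurd hb h3
        · exact h5
      · refine sq_one (v₁ v) (std_mono Γ1 B1 (fun b hb => ?_) hc)
        rcases h1 b hb with h5 | h5
        · exact h5
        · rw [h5] at hb
          exact absurd hb h3
    have h5 : (gn (v₁ v) * gn (v₂ v)) ^ (m + m) = 1 := by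
      rw [pow_add]
      have h6 : (c⁻¹ * (gn (v₁ v) * gn (v₂ v)) ^ m * c) *
          (c⁻¹ * (gn (v₁ v) * gn (v₂ v)) ^ m * c) =
          c⁻¹ * ((gn (v₁ v) * gn (v₂ v)) ^ m * (gn (v₁ v) * gn (v₂ v)) ^ m) * c := by group
      rw [h6] at h4
      have h7 : (gn (v₁ v) * gn (v₂ v)) ^ m * (gn (v₁ v) * gn (v₂ v)) ^ m = c * 1 * c⁻¹ := by
        rw [← h4]
        group
      rw [h7, mul_one, mul_inv_cancel]
    exact st_pow v (m + m) (by omega) h5

/-! ### the statement -/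

theorem P3_proof (hB2 : S_B2) (hB3 : S_B3) (hB6 : S_B6) (hP1 : S_P1) :
    Pool.Agent.H815.QC.S_P3 := by
  intro N _ α hα hN v g
  obtain ⟨c1, c2, n1, n2⟩ := hP1 N α hα hN v g
  have hcyc : ∀ a : V1, IsCyclic (B1 a) := fun a => by
    show IsCyclic (Multiplicative (ZMod 2))
    infer_instance
  have hφ : ∀ x y : N, g⁻¹ * α (x * y) * g = (g⁻¹ * α x * g) * (g⁻¹ * α y * g) := by
    intro x y
    rw [map_mul]
    group
  have hinj : ∀ x y : N, (g⁻¹ * α x * g) * (g⁻¹ * α y * g) =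
      (g⁻¹ * α y * g) * (g⁻¹ * α x * g) → x * y = y * x := by
    intro x y h
    rw [← hφ, ← hφ] at h
    have h1 : α (x * y) = α (y * x) := by
      have h2 := mul_right_cancel h
      exact mul_left_cancel h2
    exact hα.1 h1
  have hcom : ∀ x y : N, x * y = y * x → (g⁻¹ * α x * g) * (g⁻¹ * α y * g) =
      (g⁻¹ * α y * g) * (g⁻¹ * α x * g) := by
    intro x y h
    rw [← hφ, ← hφ, h]
  refine ⟨?_, ?_, ?_⟩
  · -- the commutator subgroup of the small factor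
    intro y hy
    obtain ⟨a, ha, b, hb, hab⟩ := hB6 N (Hs α v g) hN c1 n1
    have hDH : ⁅Hs α v g, Hs α v g⁆ ≤ Hs α v g := Subgroup.commutator_le_self _
    have ha' : g⁻¹ * α a * g ∈ std Γ1 B1 (cl v) := mem_pb.1 (hDH ha)
    have hb' : g⁻¹ * α b * g ∈ std Γ1 B1 (cl v) := mem_pb.1 (hDH hb)
    have ha1 : g⁻¹ * α a * g ≠ 1 := by
      intro h
      apply hab
      apply hinj
      rw [h, one_mul, mul_one]
    obtain ⟨T, c, hc, hT, hM⟩ := exists_Mn_in Γ1 B1 ha'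
    -- `T` is not empty
    obtain ⟨t, ht⟩ : ∃ t, T t := by
      by_contra hcon
      push Not at hcon
      have h1 := std_bot Γ1 B1 hcon hM.1
      apply ha1
      have h2 : g⁻¹ * α a * g = c * (c⁻¹ * (g⁻¹ * α a * g) * c) * c⁻¹ := by group
      rw [h2, h1]
      group
    have hpp : ∀ a, pp Γ1 T a → nb v a := by
      intro a ha
      have h1 : t.1 = a.1 + 1 ∨ a.1 = t.1 + 1 := ha t ht
      have h2 : t.1 = v := hT t ht
      rw [h2] at h1
      exact h1.symm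
    have hyc := hcom y a (hy a ha)
    obtain ⟨y1, hy1, y2, hy2, e, hc1⟩ := hB3 V1 Γ1 B1 T _ hM
      (c⁻¹ * (g⁻¹ * α y * g) * c) (by
        have h1 : (c⁻¹ * (g⁻¹ * α y * g) * c) * (c⁻¹ * (g⁻¹ * α a * g) * c) =
          c⁻¹ * ((g⁻¹ * α y * g) * (g⁻¹ * α a * g)) * c := by group
        have h2 : (c⁻¹ * (g⁻¹ * α a * g) * c) * (c⁻¹ * (g⁻¹ * α y * g) * c) =
          c⁻¹ * ((g⁻¹ * α a * g) * (g⁻¹ * α y * g)) * c := by group
        rw [h1, h2, hyc])
    have hy2' : y2 ∈ std Γ1 B1 (nb v) := std_mono Γ1 B1 hpp hy2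
    have hy1' : y1 ∈ std Γ1 B1 (cl v) := std_mono Γ1 B1 hT hy1
    have hz1 : c * y1 * c⁻¹ ∈ std Γ1 B1 (cl v) := mul_mem (mul_mem hc hy1') (inv_mem hc)
    have e2 : g⁻¹ * α y * g = (c * y1 * c⁻¹) * y2 := by
      have h1 : g⁻¹ * α y * g = c * (c⁻¹ * (g⁻¹ * α y * g) * c) * c⁻¹ := by group
      rw [h1, e]
      have h2 := std_comm Γ1 B1 (adj_cn v) (inv_mem hc) hy2'
      rw [mul_assoc (c * y1), h2]
      group
    -- the first part commutes with the commutator subgroup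
    have hz : ∀ d ∈ ⁅Hs α v g, Hs α v g⁆, (g⁻¹ * α d * g) * (c * y1 * c⁻¹) =
        (c * y1 * c⁻¹) * (g⁻¹ * α d * g) := by
      intro d hd
      have hd' : g⁻¹ * α d * g ∈ std Γ1 B1 (cl v) := mem_pb.1 (hDH hd)
      have h1 := hcom y d (hy d hd)
      rw [e2] at h1
      have h2 := std_comm Γ1 B1 (adj_cn v) hd' hy2'
      have h3 : (c * y1 * c⁻¹) * (g⁻¹ * α d * g) * y2 =
          (g⁻¹ * α d * g) * (c * y1 * c⁻¹) * y2 := by
        rw [mul_assoc _ (g⁻¹ * α d * g) y2, h2, ← mul_assoc, h1, mul_assoc (g⁻¹ * α d * g)]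
      exact (mul_right_cancel h3).symm
    have hz0 : c * y1 * c⁻¹ = 1 := by
      by_contra hne
      obtain ⟨z, hz'⟩ := hB2 V1 Γ1 B1 hcyc (cl v) (ind_cl v) _ hz1 hne
      apply hab
      apply hinj
      exact zp_comm (hz' _ ha' (hz a ha)) (hz' _ hb' (hz b hb))
    rw [hz0, one_mul] at e2
    refine mem_pb.2 ?_
    rw [e2]
    exact hy2'
  · -- the large factor
    intro y hy
    obtain ⟨a, ha, b, hb, hab⟩ := n2
    have ha' : g⁻¹ * α a * g ∈ std Γ1 B1 (nb v) := mem_pb.1 ha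
    have hb' : g⁻¹ * α b * g ∈ std Γ1 B1 (nb v) := mem_pb.1 hb
    have hfi : α.range.index ≠ 0 := hα.2.index_ne_zero
    obtain ⟨m, hm, hm2, hm3⟩ := Subgroup.exists_pow_mem_of_index_ne_zero hfi
      (g * (gn (v₁ v) * gn (v₂ v)) * g⁻¹)
    obtain ⟨k, hk⟩ := hm3
    have hk' : g⁻¹ * α k * g = (gn (v₁ v) * gn (v₂ v)) ^ m := by
      rw [hk, conj_pow]
      group
    have hkK : k ∈ Ks α v g := by
      refine mem_pb.2 ?_
      rw [hk']
      refine std_mono Γ1 B1 ?_ (Mn_st v m hm).1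
      rintro s (rfl | rfl)
      · exact nb1 v
      · exact nb2 v
    have hyk := hcom y k (hy k hkK)
    rw [hk'] at hyk
    obtain ⟨y1, hy1, y2, hy2, e, hc1⟩ := hB3 V1 Γ1 B1 _ _ (Mn_st v m hm) _ hyk
    have hy2' : y2 ∈ std Γ1 B1 (cl v) := std_mono Γ1 B1 (pp12 v) hy2
    have hy1' : y1 ∈ std Γ1 B1 (nb v) := by
      refine std_mono Γ1 B1 ?_ hy1
      rintro s (rfl | rfl)
      · exact nb1 v
      · exact nb2 v
    have hz : ∀ d ∈ Ks α v g, (g⁻¹ * α d * g) * y1 = y1 * (g⁻¹ * α d * g) := by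
      intro d hd
      have hd' : g⁻¹ * α d * g ∈ std Γ1 B1 (nb v) := mem_pb.1 hd
      have h1 := hcom y d (hy d hd)
      rw [e] at h1
      have h2 := std_comm Γ1 B1 (adj_nc v) hd' hy2'
      have h3 : y1 * (g⁻¹ * α d * g) * y2 = (g⁻¹ * α d * g) * y1 * y2 := by
        rw [mul_assoc _ (g⁻¹ * α d * g) y2, h2, ← mul_assoc, h1, mul_assoc (g⁻¹ * α d * g)]
      exact (mul_right_cancel h3).symm
    have hz0 : y1 = 1 := by
      by_contra hne
      obtain ⟨z, hz'⟩ := hB2 V1 Γ1 B1 hcyc (nb v) (ind_nb v) _ hy1' hne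
      apply hab
      apply hinj
      exact zp_comm (hz' _ ha' (hz a ha)) (hz' _ hb' (hz b hb))
    rw [hz0, one_mul] at e
    refine mem_pb.2 ?_
    rw [e]
    exact hy2'
  · intro h hh k hk
    apply hinj
    exact std_comm Γ1 B1 (adj_cn v) (mem_pb.1 hh) (mem_pb.1 hk)

end Pool.Agent.H727.QC
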